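import Pool.Agent.Y812.TM.Form

/-!
Atkin-Lehner involutions and the functional equation of the twists.
-/

set_option autoImplicit false

open UpperHalfPlane MatrixGroups CongruenceSubgroup Filter Topology
open scoped ModularForm Pointwise

namespace Pool.Agent.Y812.TM

open Pool.Agent.W97.TW

lemma im_pos_of_det {a b c d : ℤ} (h : 0 < a * d - b * c) {z : ℂ} (hz : 0 < z.im) :
    0 < (((a : ℂ) * z + b) / (c * z + d)).im := by
  have hdet : 0 < (al a b c d h).det.val := by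
    rw [al_det]; exact_mod_cast h
  have hnum : num (al a b c d h) (⟨z, hz⟩ : ℍ) = a * z + b := rfl
  have hden : denom (al a b c d h) (⟨z, hz⟩ : ℍ) = c * z + d := rfl
  have h2 : ((al a b c d h • (⟨z, hz⟩ : ℍ) : ℍ) : ℂ) = (a * z + b) / (c * z + d) := by
    rw [coe_smul_of_det_pos hdet, hnum, hden]
  rw [← h2]
  exact (al a b c d h • (⟨z, hz⟩ : ℍ)).im_pos

lemma lin_ne_zero {c d : ℤ} (h : c ≠ 0 ∨ d ≠ 0) {z : ℂ} (hz : 0 < z.im) : (c : ℂ) * z + d ≠ 0 := by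
  intro h0
  have him := congrArg Complex.im h0
  simp at him
  rcases him with hc | hz0
  · subst hc
    simp at h0
    rcases h with h | h
    · exact h rfl
    · exact h h0
  · exact hz.ne' hz0

section

variable {N : ℕ} (f : CuspForm (Gamma0 N : Subgroup (GL (Fin 2) ℝ)) 2)

/-- `f` is an eigenfunction of the Atkin-Lehner involution of the divisor `M` of the level `M R`. -/
def AL (M R : ℕ) (ε : ℂ) : Prop := ∀ A B C D : ℤ, (M : ℤ) * A * D - R * B * C = 1 →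
  ∀ z : ℂ, 0 < z.im → f (ofComplex (((M : ℂ) * A * z + B) / ((M : ℂ) * R * C * z + M * D))) =
    ε * ((M : ℂ) * ((R : ℂ) * C * z + D) ^ 2) * f (ofComplex z)

/-- one matrix is enough -/
lemma AL_of_one {M R : ℕ} (hM : 0 < M) (hMR : M * R = N) {ε : ℂ} {A₀ B₀ C₀ D₀ : ℤ}
    (hdet₀ : (M : ℤ) * A₀ * D₀ - R * B₀ * C₀ = 1)
    (h₀ : ∀ z : ℂ, 0 < z.im → f (ofComplex (((M : ℂ) * A₀ * z + B₀) / ((M : ℂ) * R * C₀ * z + M * D₀))) =
      ε * ((M : ℂ) * ((R : ℂ) * C₀ * z + D₀) ^ 2) * f (ofComplex z)) : AL f M R ε := by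
  intro A B C D hdet z hz
  have hMC : (M : ℂ) ≠ 0 := by exact_mod_cast hM.ne'
  have hM0 : (0 : ℤ) < M := by exact_mod_cast hM
  set w₀ : ℂ := ((M : ℂ) * A₀ * z + B₀) / ((M : ℂ) * R * C₀ * z + M * D₀) with hw₀
  have hw₀i : 0 < w₀.im := by
    have h1 := im_pos_of_det (a := M * A₀) (b := B₀) (c := M * R * C₀) (d := M * D₀) (by
      have : (M : ℤ) * A₀ * (M * D₀) - B₀ * (M * R * C₀) = M * ((M : ℤ) * A₀ * D₀ - R * B₀ * C₀) := by
        ring
      rw [this, hdet₀, mul_one]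
      exact hM0) hz
    push_cast at h1
    exact h1
  have hq₀ : (R : ℂ) * C₀ * z + D₀ ≠ 0 := by
    have := lin_ne_zero (c := R * C₀) (d := D₀) (by
      by_contra hcon
      push Not at hcon
      have : (M : ℤ) * A₀ * D₀ - R * B₀ * C₀ = M * A₀ * D₀ - B₀ * (R * C₀) := by ring
      rw [this, hcon.1, hcon.2] at hdet₀
      simp at hdet₀) hz
    push_cast at this
    exact this
  have hq : (R : ℂ) * C * z + D ≠ 0 := by
    have := lin_ne_zero (c := R * C) (d := D) (by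
      by_contra hcon
      push Not at hcon
      have : (M : ℤ) * A * D - R * B * C = M * A * D - B * (R * C) := by ring
      rw [this, hcon.1, hcon.2] at hdet
      simp at hdet) hz
    push_cast at this
    exact this
  have hdetC : (M : ℂ) * A * D - R * B * C = 1 := by exact_mod_cast hdet
  have hdet₀C : (M : ℂ) * A₀ * D₀ - R * B₀ * C₀ = 1 := by exact_mod_cast hdet₀
  have h1 := f_gamma f (a := M * A * D₀ - R * B * C₀) (b := B * A₀ - A * B₀)
    (c := M * R * (C * D₀ - D * C₀)) (d := M * D * A₀ - R * C * B₀) (by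
      linear_combination ((M : ℤ) * A * D - R * B * C) * hdet₀ + hdet)
    (by
      refine Dvd.dvd.mul_right ?_ _
      rw [← hMR]; push_cast; exact dvd_rfl) hw₀i
  have e0 : (M : ℂ) * R * C₀ * z + M * D₀ = M * ((R : ℂ) * C₀ * z + D₀) := by ring
  have e1 : (((M * R * (C * D₀ - D * C₀) : ℤ) : ℂ) * w₀ + ((M * D * A₀ - R * C * B₀ : ℤ) : ℂ)) =
      ((R : ℂ) * C * z + D) / ((R : ℂ) * C₀ * z + D₀) := by
    rw [hw₀, e0]
    push_cast
    field_simp
    linear_combination ((R : ℂ) * C * z + D) * hdet₀C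
  have e2 : (((M * A * D₀ - R * B * C₀ : ℤ) : ℂ) * w₀ + ((B * A₀ - A * B₀ : ℤ) : ℂ)) =
      ((M : ℂ) * A * z + B) / (M * ((R : ℂ) * C₀ * z + D₀)) := by
    rw [hw₀, e0]
    push_cast
    field_simp
    linear_combination ((M : ℂ) * A * z + B) * hdet₀C
  have e3 : (((M * A * D₀ - R * B * C₀ : ℤ) : ℂ) * w₀ + ((B * A₀ - A * B₀ : ℤ) : ℂ)) /
      (((M * R * (C * D₀ - D * C₀) : ℤ) : ℂ) * w₀ + ((M * D * A₀ - R * C * B₀ : ℤ) : ℂ)) =
      ((M : ℂ) * A * z + B) / ((M : ℂ) * R * C * z + M * D) := by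
    rw [e1, e2, show (M : ℂ) * R * C * z + M * D = M * ((R : ℂ) * C * z + D) by ring]
    generalize (R : ℂ) * C₀ * z + D₀ = X₀ at hq₀ ⊢
    generalize (R : ℂ) * C * z + D = X at hq ⊢
    field_simp
  rw [e3, e1, h₀ z hz] at h1
  rw [h1, zpow_ofNat]
  generalize (R : ℂ) * C₀ * z + D₀ = X₀ at hq₀ ⊢
  field_simp

/-- the trivial involution -/
lemma AL_one : AL f 1 N 1 := by
  refine AL_of_one f one_pos (one_mul N) (A₀ := 1) (B₀ := 0) (C₀ := 0) (D₀ := 1) (by norm_num) ?_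
  intro z _
  simp

lemma cusp_three {M R : ℕ} {ε : ℂ} (hAL : AL f M R ε) (hM : 0 < M) {m : ℕ} (hm : 0 < m)
    (hR : R ∣ m) {u v g : ℤ} (hg : (M : ℤ) * u * v + 1 = g * m) {z : ℂ} (hz : 0 < z.im) :
    f (ofComplex (-1 / ((M : ℂ) * (m : ℂ) ^ 2 * z) + (u : ℂ) / m)) =
      (ε * M * ((m : ℂ) * z) ^ 2) * f (ofComplex (z + (v : ℂ) / m)) := by
  obtain ⟨m', rfl⟩ := hR
  have hmC : ((R * m' : ℕ) : ℂ) ≠ 0 := by exact_mod_cast hm.ne'
  have hMC : (M : ℂ) ≠ 0 := by exact_mod_cast hM.ne'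
  have hzC := ne_zero_of_im hz
  set m : ℕ := R * m' with hmdef
  set w : ℂ := z + (v : ℂ) / m with hw
  have hwi : 0 < w.im := im_add_div hz v m
  have hgC : (M : ℂ) * u * v + 1 = g * m := by exact_mod_cast hg
  have h1 := hAL u (-g) m' (-v) (by
    have : (g : ℤ) * m = g * (R * m') := by rw [hmdef]; push_cast; ring
    rw [this] at hg
    linear_combination -hg) w hwi
  have hmw : (m : ℂ) * w = m * z + v := by rw [hw]; field_simp
  have hRm : (R : ℂ) * (m' : ℤ) = m := by rw [hmdef]; push_cast; ring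
  have e1 : (R : ℂ) * (m' : ℤ) * w + ((-v : ℤ) : ℂ) = m * z := by
    rw [hRm]; push_cast; linear_combination hmw
  have e2 : (M : ℂ) * R * (m' : ℤ) * w + M * ((-v : ℤ) : ℂ) = M * (m * z) := by
    rw [← e1]; ring
  have e3 : ((M : ℂ) * u * w + ((-g : ℤ) : ℂ)) / (M * (m * z)) =
      -1 / ((M : ℂ) * (m : ℂ) ^ 2 * z) + (u : ℂ) / m := by
    push_cast
    field_simp
    linear_combination (M * (u : ℂ)) * hmw + hgC
  rw [e1, e2, e3] at h1
  rw [h1]
  ring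

lemma TS_three {M R : ℕ} {ε : ℂ} (hAL : AL f M R ε) (hM : 0 < M) {m : ℕ} [NeZero m]
    (hR : R ∣ m) (hMm : Nat.Coprime M m) (ψ : DirichletCharacter ℂ m)
    (hsq : ψ ^ 2 = 1) {z : ℂ} (hz : 0 < z.im) :
    TS f ψ (-1 / ((M : ℂ) * (m : ℂ) ^ 2 * z)) =
      ψ (-((M : ZMod m))) * (ε * M * ((m : ℂ) * z) ^ 2) * TS f ψ z := by
  unfold TS
  rw [mul_assoc (ψ (-((M : ZMod m)))), Finset.mul_sum]
  have h1 : ∀ a : ZMod m, ε * M * ((m : ℂ) * z) ^ 2 *
      (ψ a * f (ofComplex (z + ((a.val : ℤ) : ℂ) / m))) =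
      ψ a * (ε * M * ((m : ℂ) * z) ^ 2 * f (ofComplex (z + ((a.val : ℤ) : ℂ) / m))) :=
    fun a => by ring
  simp_rw [h1]
  refine reindex ψ hsq (M : ZMod m) ((ZMod.isUnit_iff_coprime _ _).2 hMm) _ _ fun a a' h => ?_
  obtain ⟨g, hg⟩ := exists_g (m := m) (M : ℤ) (a := a) (a' := a') (by exact_mod_cast h)
  exact cusp_three f hAL hM (NeZero.pos m) hR hg hz

end

end Pool.Agent.Y812.TM
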