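import Mathlib

/-!
The primitive real character attached to a non-zero integer `g`: `χ(p) = (g / p)` for `p ∤ 2g`.
-/

set_option autoImplicit false

namespace Pool.Agent.Y812.TM

lemma odd_of_cop {g : ℤ} {n : ℕ} (h : n.Coprime (4 * g.natAbs)) : Odd n := by
  rw [← Nat.coprime_two_right]
  exact Nat.Coprime.coprime_dvd_right (by omega) h

lemma gcd_of_cop {g : ℤ} {n : ℕ} (h : n.Coprime (4 * g.natAbs)) : g.gcd n = 1 := by
  have h1 : n.Coprime g.natAbs := Nat.Coprime.coprime_dvd_right (dvd_mul_left _ _) h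
  rw [Int.gcd_def, Int.natAbs_natCast]
  exact h1.symm

open Classical in
/-- `n ↦ (g / n)` modulo `4 |g|`, as a function. -/
noncomputable def gfun (g : ℤ) (a : ZMod (4 * g.natAbs)) : ℂ :=
  if IsUnit a then ((jacobiSym g a.val : ℤ) : ℂ) else 0

lemma gfun_unit {g : ℤ} {a : ZMod (4 * g.natAbs)} (ha : IsUnit a) :
    gfun g a = ((jacobiSym g a.val : ℤ) : ℂ) := if_pos ha

lemma gfun_not {g : ℤ} {a : ZMod (4 * g.natAbs)} (ha : ¬ IsUnit a) : gfun g a = 0 := if_neg ha

/-- `n ↦ (g / n)` modulo `4 |g|`. -/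
noncomputable def gchar (g : ℤ) (hg : g ≠ 0) : DirichletCharacter ℂ (4 * g.natAbs) where
  toFun := gfun g
  map_one' := by
    have h4 : 1 < 4 * g.natAbs := by have := Int.natAbs_pos.2 hg; omega
    have : Fact (1 < 4 * g.natAbs) := ⟨h4⟩
    rw [gfun_unit isUnit_one, ZMod.val_one]
    simp
  map_mul' := by
    have : NeZero (4 * g.natAbs) := ⟨by have := Int.natAbs_ne_zero.2 hg; omega⟩
    intro a b
    by_cases ha : IsUnit a
    · by_cases hb : IsUnit b
      · rw [gfun_unit ha, gfun_unit hb, gfun_unit (ha.mul hb), ZMod.val_mul]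
        have ca : (a.val).Coprime (4 * g.natAbs) := by
          rw [← ZMod.isUnit_iff_coprime, ZMod.natCast_zmod_val]; exact ha
        have cb : (b.val).Coprime (4 * g.natAbs) := by
          rw [← ZMod.isUnit_iff_coprime, ZMod.natCast_zmod_val]; exact hb
        have oa := odd_of_cop ca
        have ob := odd_of_cop cb
        have : NeZero a.val := ⟨oa.pos.ne'⟩
        have : NeZero b.val := ⟨ob.pos.ne'⟩
        rw [← jacobiSym.mod_right g (oa.mul ob), jacobiSym.mul_right]
        push_cast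
        ring
      · have : ¬ IsUnit (a * b) := fun h => hb (isUnit_of_mul_isUnit_right h)
        rw [gfun_not this, gfun_not hb, mul_zero]
    · have : ¬ IsUnit (a * b) := fun h => ha (isUnit_of_mul_isUnit_left h)
      rw [gfun_not this, gfun_not ha, zero_mul]
  map_nonunit' := fun a ha => gfun_not ha

lemma gchar_apply (g : ℤ) (hg : g ≠ 0) (n : ℕ) (hn : n.Coprime (4 * g.natAbs)) :
    gchar g hg (n : ZMod (4 * g.natAbs)) = ((jacobiSym g n : ℤ) : ℂ) := by
  have hu : IsUnit ((n : ℕ) : ZMod (4 * g.natAbs)) := (ZMod.isUnit_iff_coprime _ _).2 hn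
  change gfun g _ = _
  rw [gfun_unit hu, ZMod.val_natCast, ← jacobiSym.mod_right g (odd_of_cop hn)]

lemma gchar_sq (g : ℤ) (hg : g ≠ 0) : gchar g hg ^ 2 = 1 := by
  have : NeZero (4 * g.natAbs) := ⟨by have := Int.natAbs_ne_zero.2 hg; omega⟩
  ext u
  have hc : ((u : ZMod (4 * g.natAbs)).val).Coprime (4 * g.natAbs) := by
    rw [← ZMod.isUnit_iff_coprime, ZMod.natCast_zmod_val]; exact u.isUnit
  have h1 := gchar_apply g hg _ hc
  rw [ZMod.natCast_zmod_val] at h1
  rw [MulChar.pow_apply_coe, h1, MulChar.one_apply_coe]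
  have h2 := jacobiSym.sq_one (gcd_of_cop hc)
  exact_mod_cast h2

/-- The primitive real character attached to `g`. -/
theorem exists_char (g : ℤ) (hg : g ≠ 0) : ∃ (m : ℕ) (ψ : DirichletCharacter ℂ m), 0 < m ∧
    ψ.IsPrimitive ∧ ψ ^ 2 = 1 ∧ m ∣ 4 * g.natAbs ∧
    ∀ p : ℕ, p.Prime → ¬ (p : ℤ) ∣ 2 * g →
      ψ (p : ZMod m) = ((jacobiSym g p : ℤ) : ℂ) := by
  have hNZ : NeZero (4 * g.natAbs) := ⟨by have := Int.natAbs_ne_zero.2 hg; omega⟩
  have hd := (gchar g hg).conductor_dvd_level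
  refine ⟨(gchar g hg).conductor, (gchar g hg).primitiveCharacter, ?_, ?_, ?_, hd, ?_⟩
  · exact Nat.pos_of_ne_zero (DirichletCharacter.conductor_ne_zero _)
  · exact DirichletCharacter.primitiveCharacter_isPrimitive _
  · apply DirichletCharacter.changeLevel_injective hd
    rw [map_pow, DirichletCharacter.changeLevel_primitiveCharacter, gchar_sq, map_one]
  · intro p hp hpg
    have hc : p.Coprime (4 * g.natAbs) := by
      rw [hp.coprime_iff_not_dvd]
      intro h
      apply hpg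
      rw [Int.natCast_dvd, Int.natAbs_mul]
      have h4 : p ∣ 2 * (2 * g.natAbs) := by rwa [← mul_assoc]
      rcases (Nat.Prime.dvd_mul hp).1 h4 with h1 | h1
      · exact Dvd.dvd.mul_right h1 _
      · exact h1
    have hu : IsUnit ((p : ℕ) : ZMod (4 * g.natAbs)) := (ZMod.isUnit_iff_coprime _ _).2 hc
    obtain ⟨u, hu'⟩ := hu
    have h1 := gchar_apply g hg p hc
    rw [← h1, ← hu']
    conv_rhs => rw [← DirichletCharacter.changeLevel_primitiveCharacter (gchar g hg)]
    rw [DirichletCharacter.changeLevel_eq_cast_of_dvd, hu', ZMod.cast_natCast hd]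

end Pool.Agent.Y812.TM
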