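import Pool.Agent.W97.TW.HeckeForm
import Pool.Agent.Y496.QT10a

/-!
The twist of a weight two cusp form by a primitive real character, as a cusp form.
-/

set_option autoImplicit false

open UpperHalfPlane MatrixGroups CongruenceSubgroup Filter Topology
open scoped ModularForm Pointwise

namespace Pool.Agent.Y812.TM

open Pool.Agent.W97.TW

section

variable {N : ℕ} (f : CuspForm (Gamma0 N : Subgroup (GL (Fin 2) ℝ)) 2) {m : ℕ} [NeZero m]
  (ψ : DirichletCharacter ℂ m)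

lemma sh_pos (m : ℕ) [NeZero m] (a : ℤ) : (0 : ℤ) < (m : ℤ) * m - a * 0 := by
  have : (0 : ℤ) < m := by exact_mod_cast NeZero.pos m
  rw [mul_zero, sub_zero]
  positivity

/-- the translation by `a / m` -/
noncomputable def sh (a : ZMod m) : GL (Fin 2) ℝ := al m (a.val : ℤ) 0 m (sh_pos m _)

lemma slash_sh (a : ZMod m) (z : ℍ) : ((f : ℍ → ℂ) ∣[(2 : ℤ)] sh a) z =
    f (ofComplex ((z : ℂ) + ((a.val : ℤ) : ℂ) / m)) := by
  have hm : (m : ℂ) ≠ 0 := by exact_mod_cast (NeZero.ne m)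
  unfold sh
  rw [slash_al]
  have e1 : (((m : ℤ) : ℂ) * (z : ℂ) + ((a.val : ℤ) : ℂ)) / (((0 : ℤ) : ℂ) * z + ((m : ℤ) : ℂ)) =
      (z : ℂ) + ((a.val : ℤ) : ℂ) / m := by
    rw [Int.cast_zero, zero_mul, zero_add, Int.cast_natCast, add_div, mul_div_cancel_left₀ _ hm]
  rw [e1]
  have e2 : ((((m : ℤ) * m - (a.val : ℤ) * 0 : ℤ) : ℂ)) ^ ((2 : ℤ) - 1) *
      (((0 : ℤ) : ℂ) * z + ((m : ℤ) : ℂ)) ^ (-(2 : ℤ)) = 1 := by
    rw [show (2 : ℤ) - 1 = 1 by norm_num, zpow_one, zpow_neg, zpow_ofNat]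
    push_cast
    rw [zero_mul, zero_add, mul_zero, sub_zero]
    field_simp
  rw [mul_assoc, e2, mul_one]

lemma sh_mul {M : ℕ} (hNM : N ∣ M * m) {x y z w : ℤ} (hdet : x * w - y * z = 1)
    (hz : ((M * m ^ 2 : ℕ) : ℤ) ∣ z) (a : ZMod m) :
    ∃ γ' ∈ Gamma0 N, sh a * ((mkSL x y z w hdet : SL(2, ℤ)) : GL (Fin 2) ℝ) =
      (γ' : GL (Fin 2) ℝ) * sh (a * (w : ZMod m) ^ 2) := by
  obtain ⟨c, rfl⟩ := hz
  have hxw : (x : ZMod m) * w = 1 := by
    have h1 : ((x * w - y * (((M * m ^ 2 : ℕ) : ℤ) * c) : ℤ) : ZMod m) = 1 := by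
      rw [hdet]; simp
    push_cast at h1
    simpa using h1
  set a' : ZMod m := a * (w : ZMod m) ^ 2 with ha'
  obtain ⟨t, ht⟩ : ∃ t : ℤ, (a.val : ℤ) * w - x * (a'.val : ℤ) = m * t := by
    have h1 : (((a.val : ℤ) * w - x * (a'.val : ℤ) : ℤ) : ZMod m) = 0 := by
      push_cast
      rw [ZMod.natCast_zmod_val, ZMod.natCast_zmod_val, ha']
      linear_combination (-(a * w)) * hxw
    rw [ZMod.intCast_zmod_eq_zero_iff_dvd] at h1
    exact h1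
  push_cast at hdet
  refine ⟨mkSL (x + (a.val : ℤ) * M * m * c) (y + t - (a.val : ℤ) * (a'.val : ℤ) * M * c)
    (((M * m ^ 2 : ℕ) : ℤ) * c) (w - (a'.val : ℤ) * M * m * c) ?_, ?_, ?_⟩
  · push_cast
    linear_combination hdet + (M * m * c : ℤ) * ht
  · rw [mkSL_mem]
    have h1 : (N : ℤ) ∣ ((M * m : ℕ) : ℤ) := by exact_mod_cast hNM
    have h2 : ((M * m ^ 2 : ℕ) : ℤ) * c = ((M * m : ℕ) : ℤ) * (m * c) := by push_cast; ring
    rw [h2]
    exact h1.mul_right _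
  · refine al_mul (sh_pos m _) (sh_pos m _) _ _ ?_
    rw [mkSL_coe, mkSL_coe, Matrix.mul_fin_two, Matrix.mul_fin_two]
    generalize (a.val : ℤ) = α at ht ⊢
    generalize (a'.val : ℤ) = α' at ht ⊢
    ext i j
    fin_cases i <;> fin_cases j <;> simp
    · ring
    · linear_combination ht
    · ring
    · ring

/-- the twist as a function on the upper half-plane -/
noncomputable def twf : ℍ → ℂ :=
  (tau ψ)⁻¹ • ∑ a : ZMod m, ψ a • ((f : ℍ → ℂ) ∣[(2 : ℤ)] sh a)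

lemma twf_apply (z : ℍ) : twf f ψ z = (tau ψ)⁻¹ * TS f ψ z := by
  unfold twf TS
  rw [Pi.smul_apply, Finset.sum_apply, smul_eq_mul]
  congr 1
  refine Finset.sum_congr rfl fun a _ => ?_
  rw [Pi.smul_apply, slash_sh, smul_eq_mul]

lemma twf_slash {M : ℕ} (hNM : N ∣ M * m) (hsq : ψ ^ 2 = 1) {γ : SL(2, ℤ)}
    (hγ : γ ∈ Gamma0 (M * m ^ 2)) : twf f ψ ∣[(2 : ℤ)] (γ : GL (Fin 2) ℝ) = twf f ψ := by
  obtain ⟨x, y, z, w, hdet, rfl⟩ := exists_mkSL γ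
  rw [mkSL_mem] at hγ
  have hxw : (x : ZMod m) * w = 1 := by
    obtain ⟨c, rfl⟩ := hγ
    have h1 : ((x * w - y * (((M * m ^ 2 : ℕ) : ℤ) * c) : ℤ) : ZMod m) = 1 := by
      rw [hdet]; simp
    push_cast at h1
    simpa using h1
  have hwu : IsUnit (w : ZMod m) := IsUnit.of_mul_eq_one (x : ZMod m) (by rw [mul_comm]; exact hxw)
  have hψw : ψ ((w : ZMod m) ^ 2) = 1 := by
    obtain ⟨u, hu⟩ := hwu
    have h1 := congrArg (fun χ : DirichletCharacter ℂ m => χ (u : ZMod m)) hsq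
    rw [MulChar.one_apply_coe, MulChar.pow_apply_coe] at h1
    rw [← hu, map_pow, h1]
  unfold twf
  rw [← ModularForm.SL_slash, ModularForm.SL_smul_slash, SlashAction.sum_slash]
  congr 1
  have h1 : ∀ a : ZMod m, (ψ a • ((f : ℍ → ℂ) ∣[(2 : ℤ)] sh a)) ∣[(2 : ℤ)] mkSL x y z w hdet =
      ψ (a * (w : ZMod m) ^ 2) • ((f : ℍ → ℂ) ∣[(2 : ℤ)] sh (a * (w : ZMod m) ^ 2)) := by
    intro a
    obtain ⟨γ', hγ', he⟩ := sh_mul (N := N) hNM hdet hγ a
    rw [ModularForm.SL_smul_slash, ModularForm.SL_slash, ← SlashAction.slash_mul, he,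
      SlashAction.slash_mul, map_mul, hψw, mul_one]
    congr 2
    exact SlashInvariantFormClass.slash_action_eq f _ ⟨γ', hγ', rfl⟩
  rw [Finset.sum_congr rfl fun a _ => h1 a]
  obtain ⟨u, hu⟩ := hwu
  have h2 := Equiv.sum_comp (Units.mulRight (u ^ 2))
    (fun a : ZMod m => ψ a • ((f : ℍ → ℂ) ∣[(2 : ℤ)] sh a))
  rw [← h2]
  refine Finset.sum_congr rfl fun a _ => ?_
  rw [Units.mulRight_apply, Units.val_pow_eq_pow_val, hu]

lemma twf_holo : MDifferentiable (modelWithCornersSelf ℂ ℂ) (modelWithCornersSelf ℂ ℂ)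
    (twf f ψ) := by
  unfold twf
  refine MDifferentiable.const_smul _ (MDifferentiable.sum fun a _ => ?_)
  exact MDifferentiable.const_smul _ (holo_slash f m (a.val : ℤ) 0 m (sh_pos m _))

lemma twf_zero [NeZero N] {M : ℕ} [NeZero (M * m ^ 2)] {c : OnePoint ℝ}
    (hc : IsCusp c (Gamma0 (M * m ^ 2) : Subgroup (GL (Fin 2) ℝ))) :
    OnePoint.IsZeroAt c (twf f ψ) 2 := by
  have hc' : IsCusp c (Gamma0 N : Subgroup (GL (Fin 2) ℝ)) := by
    rw [Subgroup.IsArithmetic.isCusp_iff_isCusp_SL2Z] at hc ⊢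
    exact hc
  intro g hg
  unfold twf
  rw [ModularForm.smul_slash, SlashAction.sum_slash]
  have h1 : ∀ a : ZMod m, Tendsto ((ψ a • ((f : ℍ → ℂ) ∣[(2 : ℤ)] sh a)) ∣[(2 : ℤ)] g) atImInfty
      (𝓝 0) := by
    intro a
    rw [ModularForm.smul_slash]
    have h2 : Tendsto (((f : ℍ → ℂ) ∣[(2 : ℤ)] sh a) ∣[(2 : ℤ)] g) atImInfty (𝓝 0) :=
      zero_slash' f m (a.val : ℤ) 0 m (sh_pos m _) hc' g hg
    have h3 := h2.const_smul (σ g (ψ a))
    rw [smul_zero] at h3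
    exact h3
  have h4 : Tendsto (∑ a : ZMod m, (ψ a • ((f : ℍ → ℂ) ∣[(2 : ℤ)] sh a)) ∣[(2 : ℤ)] g) atImInfty
      (𝓝 0) := by
    rw [show (0 : ℂ) = ∑ a : ZMod m, 0 by simp, Finset.sum_fn]
    exact tendsto_finsetSum _ fun a _ => h1 a
  have h5 := h4.const_smul (σ g (tau ψ)⁻¹)
  rw [smul_zero] at h5
  exact h5

/-- the twist as a cusp form of level `M m²` -/
noncomputable def twForm [NeZero N] {M : ℕ} [NeZero (M * m ^ 2)] (hNM : N ∣ M * m)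
    (hsq : ψ ^ 2 = 1) : CuspForm (Gamma0 (M * m ^ 2) : Subgroup (GL (Fin 2) ℝ)) 2 where
  toFun := twf f ψ
  slash_action_eq' := by
    rintro g ⟨γ, hγ, rfl⟩
    exact twf_slash f ψ hNM hsq hγ
  holo' := twf_holo f ψ
  zero_at_cusps' := twf_zero f ψ

lemma twForm_apply [NeZero N] {M : ℕ} [NeZero (M * m ^ 2)] (hNM : N ∣ M * m)
    (hsq : ψ ^ 2 = 1) (z : ℍ) : twForm f ψ hNM hsq z = (tau ψ)⁻¹ * TS f ψ z :=
  twf_apply f ψ z

/-- the Fourier coefficients of the twist -/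
lemma coeff_twForm [NeZero N] {M : ℕ} [NeZero (M * m ^ 2)] (hNM : N ∣ M * m)
    (hsq : ψ ^ 2 = 1) (hψ : ψ.IsPrimitive) (n : ℕ) :
    (qExpansion 1 (twForm f ψ hNM hsq)).coeff n = (qExpansion 1 f).coeff n * ψ n := by
  symm
  refine ModularFormClass.qExpansion_coeff_unique (k := 2)
    (Γ := (Gamma0 (M * m ^ 2) : Subgroup (GL (Fin 2) ℝ))) one_pos one_mem0
    (c := fun n => (qExpansion 1 f).coeff n * ψ n) (fun τ => ?_) n
  have h1 := (Pool.Agent.Y496.QT10a.hasSum_TS f ψ hψ hsq τ.im_pos).mul_left (tau ψ)⁻¹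
  rw [twForm_apply]
  refine h1.congr_fun fun n => ?_
  rw [← mul_assoc, inv_mul_cancel₀ (tau_ne_zero ψ hψ), one_mul]
  change A f n * ψ n * _ = _
  congr 1
  unfold Function.Periodic.qParam
  rw [← Complex.exp_nat_mul]
  congr 1
  push_cast
  ring

end

end Pool.Agent.Y812.TM
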