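import Pool.Agent.Y812.TM.Main
import Pool.Agent.TH940.Inst
import Pool.Agent.Y818.QT13b
import Pool.Agent.Y691.QT10

/-!
The quadratic twists of `X_0(14)`.
-/

set_option autoImplicit false

open UpperHalfPlane MatrixGroups CongruenceSubgroup Filter Topology
open scoped ModularForm Pointwise

namespace Pool.Agent.Y812.TM

open Pool.Agent.W97.MT
open Pool.Agent.Y19.QT (coef IsFormOf TwistsModular IsLFun HasTwists)

/-- from the cusp data to the Atkin-Lehner property -/
lemma AL_of_map {m j : ℂ → ℂ} (h : IsMap m j) {M R : ℕ} (hM : 0 < M) (hMR : M * R = 14)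
    {A₀ B₀ C₀ D₀ : ℤ} (hdet₀ : (M : ℤ) * A₀ * D₀ - R * B₀ * C₀ = 1)
    (hm : ∀ z : ℂ, 0 < z.im →
      ((M : ℂ) * A₀ * z + B₀) / ((M : ℂ) * R * C₀ * z + M * D₀) = m z)
    (hj : ∀ z : ℂ, 0 < z.im → j z * ((M : ℂ) * ((R : ℂ) * C₀ * z + D₀) ^ 2) = 1) :
    ∃ ε : ℝ, (ε = 1 ∨ ε = -1) ∧ AL form14 M R ε := by
  obtain ⟨ε, hε, hs⟩ := h.sign
  have key : ∀ z : ℂ, 0 < z.im →
      form14 (ofComplex (((M : ℂ) * A₀ * z + B₀) / ((M : ℂ) * R * C₀ * z + M * D₀))) =
      ε * ((M : ℂ) * ((R : ℂ) * C₀ * z + D₀) ^ 2) * form14 (ofComplex z) := by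
    intro z hz
    rw [hm z hz, form14_of (h.pos z hz), form14_of hz]
    have h1 := hs z hz
    have h2 := hj z hz
    linear_combination ((M : ℂ) * ((R : ℂ) * C₀ * z + D₀) ^ 2) * h1 - ff (m z) * h2
  rcases hε with h1 | h1
  · refine ⟨1, Or.inl rfl, AL_of_one form14 hM hMR hdet₀ ?_⟩
    intro z hz
    rw [key z hz, h1]
    push_cast
    rfl
  · refine ⟨-1, Or.inr rfl, AL_of_one form14 hM hMR hdet₀ ?_⟩
    intro z hz
    rw [key z hz, h1]
    push_cast
    rfl

lemma cusp7_map : IsMap m7 j7 := by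
  rcases cusp7 with h | h
  · exact h.map
  · exact h.map

lemma cusp14_map : IsMap m14 j14 := by
  rcases cusp14 with h | h
  · exact h.map
  · exact h.map

/-- all Atkin-Lehner involutions -/
theorem AL14 (M R : ℕ) (hMR : M * R = 14) : ∃ ε : ℝ, (ε = 1 ∨ ε = -1) ∧ AL form14 M R ε := by
  have hM : M ∣ 14 := ⟨R, hMR.symm⟩
  have hM' : M ∈ Nat.divisors 14 := Nat.mem_divisors.2 ⟨hM, by norm_num⟩
  have hM'' : M = 1 ∨ M = 2 ∨ M = 7 ∨ M = 14 := by
    have : Nat.divisors 14 = {1, 2, 7, 14} := by decide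
    rw [this] at hM'
    simpa using hM'
  rcases hM'' with rfl | rfl | rfl | rfl
  · obtain rfl : R = 14 := by omega
    exact ⟨1, Or.inl rfl, by
      have := AL_one form14
      push_cast
      exact this⟩
  · obtain rfl : R = 7 := by omega
    refine AL_of_map cusp2.map (by norm_num) rfl (A₀ := 1) (B₀ := -1) (C₀ := 1) (D₀ := -3)
      (by norm_num) ?_ ?_
    · intro z _
      unfold m2
      push_cast
      congr 1 <;> ring
    · intro z hz
      have h0 := w2_aux hz
      unfold j2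
      push_cast
      have e : (7 : ℂ) * 1 * z + -3 = 7 * z - 3 := by ring
      rw [e]
      exact inv_mul_cancel₀ (mul_ne_zero two_ne_zero (pow_ne_zero 2 h0))
  · obtain rfl : R = 2 := by omega
    refine AL_of_map cusp7_map (by norm_num) rfl (A₀ := 1) (B₀ := -4) (C₀ := 1) (D₀ := -1)
      (by norm_num) ?_ ?_
    · intro z _
      unfold m7
      push_cast
      congr 1 <;> ring
    · intro z hz
      have h0 := w7_aux hz
      unfold j7
      push_cast
      have e : (2 : ℂ) * 1 * z + -1 = 2 * z - 1 := by ring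
      rw [e]
      exact inv_mul_cancel₀ (mul_ne_zero (by norm_num) (pow_ne_zero 2 h0))
  · obtain rfl : R = 1 := by omega
    refine AL_of_map cusp14_map (by norm_num) rfl (A₀ := 0) (B₀ := -1) (C₀ := 1) (D₀ := 0)
      (by norm_num) ?_ ?_
    · intro z _
      unfold m14
      push_cast
      congr 1 <;> ring
    · intro z hz
      have h0 := z_ne hz
      unfold j14
      push_cast
      have e : (1 : ℂ) * 1 * z + 0 = z := by ring
      rw [e]
      exact inv_mul_cancel₀ (mul_ne_zero (by norm_num) (pow_ne_zero 2 h0))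

/-- the newform of `X_0(14)` -/
theorem isForm14 : IsFormOf 5805 (-285714) 14 form14 := by
  obtain ⟨hint, h1, -, -⟩ := TH940.Inst.facts
  refine ⟨by norm_num, h1, ?_, TH940.Inst.mul, fun p j hp => TH940.Inst.pow p j hp, ?_, ?_, ?_, ?_⟩
  · intro n
    obtain ⟨c, hc⟩ := hint n
    change ((qExpansion 1 form14).coeff n).im = 0
    rw [hc]
    simp
  · intro p hp h
    refine TH940.Inst.good p hp ?_
    rintro rfl
    exact h (by norm_num)
  · intro p hp h
    exact TH940.Inst.bad p hp h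
  · obtain ⟨w, hw, h⟩ := TH940.Inst.fricke
    refine ⟨w, hw, fun τ τ' hτ => ?_⟩
    have := h τ τ' (by exact_mod_cast hτ)
    exact_mod_cast this
  · intro p hp h
    have h2 : p ≠ 2 := by
      rintro rfl
      exact h (dvd_mul_right _ _)
    have h3 : p ≠ 3 := by
      rintro rfl
      exact h (by norm_num)
    have h7 : p ≠ 7 := by
      rintro rfl
      exact h (by norm_num)
    refine ⟨?_, TH940.Inst.points p hp h2 h3⟩
    intro hd
    have hd' : p ∣ 2 * 7 := by simpa using hd
    rcases (Nat.Prime.dvd_mul hp).1 hd' with h4 | h4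
    · exact h2 ((Nat.prime_dvd_prime_iff_eq hp Nat.prime_two).1 h4)
    · exact h7 ((Nat.prime_dvd_prime_iff_eq hp (by norm_num)).1 h4)

/-- all quadratic twists of `X_0(14)` are modular -/
theorem twists14 : TwistsModular 5805 (-285714) :=
  twistsModular isForm14 (by
    rw [show (14 : ℕ) = 2 * 7 by norm_num]
    exact (Nat.squarefree_mul (by norm_num)).2 ⟨Nat.prime_two.squarefree,
      (show Nat.Prime 7 by norm_num).squarefree⟩) AL14

end Pool.Agent.Y812.TM
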