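import Pool.Agent.Y812.TM.AL
import Pool.Agent.Y812.TM.Chr
import Pool.Agent.Y705.QT.Pts

/-!
All quadratic twists of a modular elliptic curve of squarefree conductor whose newform is an
eigenfunction of the Atkin-Lehner involutions are modular.
-/

set_option autoImplicit false

open UpperHalfPlane MatrixGroups CongruenceSubgroup Filter Topology
open scoped ModularForm Pointwise

namespace Pool.Agent.Y812.TM

open Pool.Agent.W97.TW (tau TS A tau_ne_zero)
open Pool.Agent.Y19.QT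
open Pool.Agent.H306R2.RZ (js)

/-- values of a real character -/
lemma real_val {m : ℕ} (ψ : DirichletCharacter ℂ m) (hsq : ψ ^ 2 = 1) {a : ZMod m} (ha : IsUnit a) :
    ψ a = 1 ∨ ψ a = -1 := by
  obtain ⟨u, rfl⟩ := ha
  have h1 := congrArg (fun χ : DirichletCharacter ℂ m => χ (u : ZMod m)) hsq
  rw [MulChar.one_apply_coe, MulChar.pow_apply_coe] at h1
  have h2 : (ψ u - 1) * (ψ u + 1) = 0 := by linear_combination h1
  rcases mul_eq_zero.1 h2 with h | h
  · exact Or.inl (by linear_combination h)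
  · exact Or.inr (by linear_combination h)

/-- the twist of the form of a curve is the form of the twist of the curve -/
theorem isForm_twist {a b : ℤ} {N : ℕ} {f : CuspForm (Gamma0 N : Subgroup (GL (Fin 2) ℝ)) 2}
    (hf : IsFormOf a b N f) (hN : Squarefree N)
    (hAL : ∀ M R : ℕ, M * R = N → ∃ ε : ℝ, (ε = 1 ∨ ε = -1) ∧ AL f M R ε) (g : ℤ) (hg : g ≠ 0) :
    ∃ (N' : ℕ) (f' : CuspForm (Gamma0 N' : Subgroup (GL (Fin 2) ℝ)) 2),
      IsFormOf (a * g ^ 2) (b * g ^ 3) N' f' := by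
  obtain ⟨m, ψ, hm0, hψ, hsq, hmg, hval⟩ := exists_char g hg
  have hNpos := hf.pos
  have : NeZero N := ⟨hNpos.ne'⟩
  have : NeZero m := ⟨hm0.ne'⟩
  set R : ℕ := Nat.gcd N m with hR
  have hRN : R ∣ N := Nat.gcd_dvd_left N m
  have hRm : R ∣ m := Nat.gcd_dvd_right N m
  obtain ⟨M, hM⟩ := hRN
  have hMR : M * R = N := by rw [hM]; ring
  have hM0 : 0 < M := Nat.pos_of_ne_zero (by rintro rfl; simp at hMR; omega)
  have hcop : Nat.Coprime M m := by
    refine Nat.coprime_of_dvd fun p hp h1 h2 => ?_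
    have h3 : p ∣ R := Nat.dvd_gcd (hMR ▸ h1.mul_right R) h2
    have h4 : p * p ∣ N := by rw [← hMR]; exact mul_dvd_mul h1 h3
    exact hp.not_isUnit (hN p h4)
  have hNM : N ∣ M * m := by rw [← hMR]; exact mul_dvd_mul_left M hRm
  have hN'0 : 0 < M * m ^ 2 := by positivity
  have : NeZero (M * m ^ 2) := ⟨hN'0.ne'⟩
  obtain ⟨ε, hε, hALε⟩ := hAL M R hMR
  have hc : ∀ n : ℕ, coef (twForm f ψ hNM hsq) n = coef f n * ψ n := fun n =>
    coeff_twForm f ψ hNM hsq hψ n
  have hun : ∀ n : ℕ, IsUnit ((n : ℕ) : ZMod m) ∨ ψ (n : ZMod m) = 0 := by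
    intro n
    by_cases h : IsUnit ((n : ℕ) : ZMod m)
    · exact Or.inl h
    · exact Or.inr (MulChar.map_nonunit ψ h)
  have hnorm : ∀ n : ℕ, ‖ψ (n : ZMod m)‖ ≤ 1 := by
    intro n
    rcases hun n with h | h
    · rcases real_val ψ hsq h with h | h <;> rw [h] <;> simp
    · rw [h]; simp
  have him : ∀ n : ℕ, (ψ (n : ZMod m)).im = 0 := by
    intro n
    rcases hun n with h | h
    · rcases real_val ψ hsq h with h | h <;> rw [h] <;> simp
    · rw [h]; simp
  have hpm : ∀ p : ℕ, p.Prime → p ∣ m → ψ (p : ZMod m) = 0 := by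
    intro p hp h
    apply MulChar.map_nonunit
    rw [ZMod.isUnit_iff_coprime]
    intro h1
    have := Nat.dvd_gcd dvd_rfl h
    rw [h1] at this
    exact hp.one_lt.ne' (Nat.dvd_one.1 this)
  have hpu : ∀ p : ℕ, p.Prime → ¬ p ∣ m → IsUnit ((p : ℕ) : ZMod m) := by
    intro p hp h
    rw [ZMod.isUnit_iff_coprime]
    exact (hp.coprime_iff_not_dvd).2 h
  have hdvd : ∀ p : ℕ, p.Prime → ¬ p ∣ m → (p ∣ M * m ^ 2 ↔ p ∣ N) := by
    intro p hp h
    have h1 : ¬ p ∣ m ^ 2 := fun h' => h (hp.dvd_of_dvd_pow h')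
    have h2 : ¬ p ∣ R := fun h' => h (h'.trans hRm)
    rw [← hMR, hp.dvd_mul, hp.dvd_mul]
    tauto
  have hdvdm : ∀ p : ℕ, p ∣ m → p ∣ M * m ^ 2 := fun p h =>
    (h.trans (dvd_pow_self m two_ne_zero)).mul_left M
  refine ⟨M * m ^ 2, twForm f ψ hNM hsq, ?_⟩
  refine ⟨hN'0, ?_, ?_, ?_, ?_, ?_, ?_, ?_, ?_⟩
  · -- one
    rw [hc, hf.one, Nat.cast_one, map_one, mul_one]
  · -- real
    intro n
    rw [hc, Complex.mul_im, him, hf.real n]
    ring
  · -- mul
    intro x y hxy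
    rw [hc, hc, hc, hf.mul x y hxy, Nat.cast_mul, map_mul]
    ring
  · -- pow
    intro p j hp
    simp only [hc]
    by_cases h : p ∣ m
    · rw [if_pos (hdvdm p h)]
      have h0 := hpm p hp h
      rw [Nat.cast_pow, map_pow, h0]
      simp
    · have h1 : ψ ((p : ℕ) : ZMod m) ^ 2 = 1 := by
        rcases real_val ψ hsq (hpu p hp h) with h | h <;> rw [h] <;> norm_num
      rw [hf.pow p j hp]
      simp only [Nat.cast_pow, map_pow]
      by_cases h2 : p ∣ N
      · rw [if_pos h2, if_pos ((hdvd p hp h).2 h2)]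
        ring
      · rw [if_neg h2, if_neg (fun h' => h2 ((hdvd p hp h).1 h'))]
        linear_combination (-(p * coef f (p ^ j) * ψ ((p : ℕ) : ZMod m) ^ j)) * h1
  · -- good
    intro p hp hpN'
    have h : ¬ p ∣ m := fun h => hpN' (hdvdm p h)
    have h2 : ¬ p ∣ N := fun h' => hpN' ((hdvd p hp h).2 h')
    rw [hc, norm_mul]
    have h3 := hf.good p hp h2
    calc ‖coef f p‖ * ‖ψ ((p : ℕ) : ZMod m)‖ ≤ ‖coef f p‖ * 1 :=
          mul_le_mul_of_nonneg_left (hnorm p) (norm_nonneg _)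
      _ ≤ _ := by rw [mul_one]; exact h3
  · -- bad
    intro p hp hpN'
    rw [hc, norm_mul]
    by_cases h : p ∣ m
    · rw [hpm p hp h]; simp
    · have h3 := hf.bad p hp ((hdvd p hp h).1 hpN')
      calc ‖coef f p‖ * ‖ψ ((p : ℕ) : ZMod m)‖ ≤ ‖coef f p‖ * 1 :=
            mul_le_mul_of_nonneg_left (hnorm p) (norm_nonneg _)
        _ ≤ _ := by rw [mul_one]; exact h3
  · -- fricke
    have hMu : IsUnit (-((M : ℕ) : ZMod m)) := ((ZMod.isUnit_iff_coprime _ _).2 hcop).neg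
    have key : ∀ τ τ' : ℍ, (τ' : ℂ) * (((M * m ^ 2 : ℕ) : ℂ) * (τ : ℂ)) = -1 →
        twForm f ψ hNM hsq τ' = ψ (-((M : ℕ) : ZMod m)) * (ε * M * ((m : ℂ) * τ) ^ 2) *
          twForm f ψ hNM hsq τ := by
      intro τ τ' hτ
      have hτ0 : (τ : ℂ) ≠ 0 := τ.ne_zero
      have hMC : (M : ℂ) ≠ 0 := by exact_mod_cast hM0.ne'
      have hmC : (m : ℂ) ≠ 0 := by exact_mod_cast hm0.ne'
      have e1 : (τ' : ℂ) = -1 / ((M : ℂ) * (m : ℂ) ^ 2 * τ) := by
        rw [eq_div_iff (by positivity)]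
        push_cast at hτ
        exact hτ
      rw [twForm_apply, twForm_apply, e1, TS_three f hALε hM0 hRm hcop ψ hsq τ.im_pos]
      ring
    rcases real_val ψ hsq hMu with h1 | h1 <;> rcases hε with h2 | h2
    · refine ⟨-1, Or.inr rfl, fun τ τ' hτ => ?_⟩
      rw [key τ τ' hτ, h1, h2]
      push_cast
      ring
    · refine ⟨1, Or.inl rfl, fun τ τ' hτ => ?_⟩
      rw [key τ τ' hτ, h1, h2]
      push_cast
      ring
    · refine ⟨1, Or.inl rfl, fun τ τ' hτ => ?_⟩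
      rw [key τ τ' hτ, h1, h2]
      push_cast
      ring
    · refine ⟨-1, Or.inr rfl, fun τ τ' hτ => ?_⟩
      rw [key τ τ' hτ, h1, h2]
      push_cast
      ring
  · -- points
    intro p hp hpd
    have e : 2 * (4 * (a * g ^ 2) ^ 3 + 27 * (b * g ^ 3) ^ 2) =
        (2 * (4 * a ^ 3 + 27 * b ^ 2)) * g ^ 6 := by ring
    have hpg : ¬ (p : ℤ) ∣ g := by
      intro h
      apply hpd
      rw [e]
      exact (h.trans (dvd_pow_self g (by norm_num))).mul_left _
    have hpD : ¬ (p : ℤ) ∣ 2 * (4 * a ^ 3 + 27 * b ^ 2) := by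
      intro h
      apply hpd
      rw [e]
      exact h.mul_right _
    have hp2 : p ≠ 2 := by
      rintro rfl
      exact hpD (dvd_mul_right _ _)
    have hpi : Prime (p : ℤ) := Nat.prime_iff_prime_int.1 hp
    have hp2g : ¬ (p : ℤ) ∣ 2 * g := by
      intro h
      rcases hpi.dvd_or_dvd h with h | h
      · have : p ∣ 2 := by exact_mod_cast h
        exact hp2 ((Nat.prime_dvd_prime_iff_eq hp Nat.prime_two).1 this)
      · exact hpg h
    have hpm' : ¬ p ∣ m := by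
      intro h
      have h1 : p ∣ 4 * g.natAbs := h.trans hmg
      apply hp2g
      rw [Int.natCast_dvd, Int.natAbs_mul]
      have h4 : p ∣ 2 * (2 * g.natAbs) := by rwa [← mul_assoc]
      rcases (Nat.Prime.dvd_mul hp).1 h4 with h1 | h1
      · exact Dvd.dvd.mul_right h1 _
      · exact h1
    obtain ⟨h1, h2⟩ := hf.points p hp hpD
    refine ⟨fun h => h1 ((hdvd p hp hpm').1 h), ?_⟩
    rw [hc, h2, hval p hp hp2g]
    have h3 := Pool.Agent.Y705.QT.ap_twist a b g p hp hp2 hpg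
    have h4 : ((ap (a * g ^ 2) (b * g ^ 3) p : ℤ) : ℝ) = ((jacobiSym g p : ℤ) : ℝ) * (ap a b p : ℝ) := h3
    have h5 : (ap (a * g ^ 2) (b * g ^ 3) p : ℤ) = jacobiSym g p * ap a b p := by exact_mod_cast h4
    rw [h5]
    push_cast
    ring

/-- all quadratic twists are modular -/
theorem twistsModular {a b : ℤ} {N : ℕ} {f : CuspForm (Gamma0 N : Subgroup (GL (Fin 2) ℝ)) 2}
    (hf : IsFormOf a b N f) (hN : Squarefree N)
    (hAL : ∀ M R : ℕ, M * R = N → ∃ ε : ℝ, (ε = 1 ∨ ε = -1) ∧ AL f M R ε) : TwistsModular a b :=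
  fun g hg => isForm_twist hf hN hAL g hg

end Pool.Agent.Y812.TM
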